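import Pool.Agent.Q325.XorPrim

/-!
# MP_02be1f_lc: limit measures of the exclusive-or automaton need not be computable

Here `X` is the space of the bi-infinite binary sequences, `F` is the automaton with
`F x i = x i + x (i + 1)` modulo two, `ComputableMeasure` says that the measures of the cylinders can
be computed with any prescribed precision, `LimitPoint μ ν` says that the probability measure `ν` is
a weak-* limit point of the sequence of the images of `μ` under the iterates of `F`, and
`limitLang μ` is the language of the words `w` such that the measures of the cylinder of `w` under
these images do not tend to zero.

Both questions have a positive answer.

The measures are mixtures of the uniform measures on the translates of the sequences `xs b`, which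
have a one at the multiples of `2 ^ b` that are not multiples of `3 * 2 ^ b`. Up to a translation the
image of `xs b` under the iterate number `n` depends only on `n` modulo `2 ^ b`, so each 2-adic
integer gives a limit point, and the densities of ones show that these limit points are different;
there are uncountably many of them but only countably many computable measures. For the second
question, a word which occurs in images of `xs b` but in no image of another `xs c` tells whether
`xs b` is present in the mixture, and this is made to depend on the halting of a program: the weight
of `xs b` is small if the program halts late, so that the measure stays computable.
-/

set_option autoImplicit false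

namespace Pool.Agent.Results.MP_02be1f_lc.NoncomputableLimits

open MeasureTheory Pool.Agent.Q325.XorCA

/-- Some computable shift-invariant probability measure has a limit point which is not computable,
and some computable shift-invariant probability measure has a limit set which is not computable. -/
theorem result :
    (∃ μ : Measure X, IsProbabilityMeasure μ ∧ ShiftInvariant μ ∧ ComputableMeasure μ ∧
      ∃ ν : Measure X, LimitPoint μ ν ∧ ¬ ComputableMeasure ν) ∧
    (∃ μ : Measure X, IsProbabilityMeasure μ ∧ ShiftInvariant μ ∧ ComputableMeasure μ ∧
      ¬ ComputablePred fun w => w ∈ limitLang μ) := by
  refine ⟨⟨fam1.mu, fam1.prob_mu, fam1.shift_mu, fam1.computable_mu, ?_⟩,
    ⟨fam2.mu, fam2.prob_mu, fam2.shift_mu, fam2.computable_mu, limitLang_not_computable⟩⟩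
  rw [mu_fam1]
  exact exists_limitPoint

end Pool.Agent.Results.MP_02be1f_lc.NoncomputableLimits
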